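import Pool.Agent.Lib.MP_eee7a8_ag.TB.IfaceA
import Pool.Agent.Lib.MP_eee7a8_ag.TB.A.Coord

/-!
# TAGBR, group A, module VPOS: `v a` is a Laurent polynomial with coefficients in the natural numbers
-/

open Matrix

namespace Pool.Agent.Lib.MP_eee7a8_ag.TB

namespace AVpos

variable {G : Subgroup SLZ} {K : Type} [Field K] [Algebra ℂ K]

/-- `lam b (par b) = v a * lam(a,b)^2`. -/
theorem lam_par (L : Lam G K) (h : ∀ a x y : Cusp, ∀ k : ℤ,
      ((eps (par a (k * width G a)) y : ℤ) : K) * L.sl x (par a (k * width G a) • y) =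
        L.sl x y + k * L.v a * L.sl a y * L.sl x a) {a b : Cusp} (hab : a ≠ b) :
    L.lam b (par a (width G a) • b) = L.v a * L.lam a b ^ 2 := by
  have h1 := h a b b 1
  rw [one_mul, Int.cast_one, one_mul] at h1
  have h2 := par_dt a b b (width G a)
  set n : ℤ := (width G a : ℤ) with hn
  set y := par a n • b with hy
  rw [dt_self, zero_add] at h2
  unfold Lam.sl at h1
  rw [dt_self, Int.sign_zero, Int.cast_zero, zero_mul, zero_add] at h1
  have h3 : ((Int.sign (dt a b) : ℤ) : K) * ((Int.sign (dt b a) : ℤ) : K) = -1 := by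
    rw [dt_symm b a, Int.sign_neg]
    rcases lt_or_gt_of_ne (dt_ne_zero hab) with h4 | h4
    · rw [Int.sign_eq_neg_one_of_neg h4]; norm_num
    · rw [Int.sign_eq_one_of_pos h4]; norm_num
  have h4 : L.v a * ((Int.sign (dt a b) : ℤ) * L.lam a b) * ((Int.sign (dt b a) : ℤ) * L.lam b a)
      = -(L.v a * L.lam a b ^ 2) := by
    rw [L.symm b a]
    linear_combination (L.v a * L.lam a b ^ 2) * h3
  rw [h4, ← mul_assoc] at h1
  rcases Nat.eq_zero_or_pos (width G a) with h0 | h0
  · have hy0 : y = b := by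
      rw [hy, hn, h0, Nat.cast_zero, par_zero, one_smul]
    rw [hy0, L.self]
    rw [hy0, L.self, mul_zero] at h1
    linear_combination -h1
  · have h5 : eps (par a n) b * dt b y < 0 := by
      rw [h2, dt_symm b a]
      have h6 : 0 < dt a b * dt a b := mul_self_pos.2 (dt_ne_zero hab)
      have h7 : 0 < n := by omega
      nlinarith [mul_pos h7 h6]
    have h6 : ((eps (par a n) b : ℤ) : K) * ((Int.sign (dt b y) : ℤ) : K) = -1 := by
      rcases eps_or (par a n) b with e | e
      · rw [e] at h5 ⊢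
        rw [Int.sign_eq_neg_one_of_neg (by linarith)]
        norm_num
      · rw [e] at h5 ⊢
        rw [Int.sign_eq_one_of_pos (by linarith)]
        norm_num
    rw [h6] at h1
    linear_combination -h1

end AVpos

theorem vpos (hc : ChartStatement) (he : EvnStatement) (hp : PolStatement)
    (hv : VparStatement) : VposStatement := by
  classical
  intro G K _ _ L hG ι _ T hT a
  obtain ⟨P, hP, hev⟩ := hp G K L hG ι T hT
  obtain ⟨hinj, hmul, -, -, hz, hmon, hne⟩ := he G K L ι T (hc G K L hG ι T hT)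
  have hother : a ≠ other a := by
    unfold other
    split_ifs with h
    · rw [h]; intro e; have := congrArg Cusp.x e; simp [infty, zero] at this
    · exact h
  obtain ⟨b, hb⟩ : ∃ b, T.E G a b := by
    rcases hT.star a (other a) hother with h | ⟨c, d, h, -⟩
    · exact ⟨_, h⟩
    · exact ⟨_, h⟩
  have hab : a ≠ b := hT.ne' hb
  obtain ⟨i, hi⟩ := hb
  have hlam : L.lam a b = L.lam (T.s i) (T.t i) := by
    obtain ⟨g, hg, ⟨h1, h2⟩ | ⟨h1, h2⟩⟩ := hi
    · rw [← h1, ← h2, L.inv g hg]
    · rw [← h1, ← h2, L.symm, L.inv g hg]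
  have h1 := AVpos.lam_par L (hv G K L hG) hab
  refine ⟨P b (par a (width G a) • b) * AddMonoidAlgebra.single (Pi.single i (-2)) 1, ?_⟩
  rw [hmul, hev, hmon, h1]
  have h2 : L.mon T (Pi.single i (-2)) = (L.lam a b ^ 2)⁻¹ := by
    unfold Lam.mon
    rw [Finset.prod_eq_single i]
    · rw [Pi.single_eq_same, hlam, _root_.zpow_neg]
      norm_cast
    · intro j _ hj
      rw [Pi.single_eq_of_ne hj, _root_.zpow_zero]
    · intro h; exact absurd (Finset.mem_univ i) h
  rw [h2, mul_assoc, mul_inv_cancel₀, mul_one]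
  rw [hlam]
  exact pow_ne_zero _ (hne i)

end Pool.Agent.Lib.MP_eee7a8_ag.TB
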